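import Pool.Agent.helper88.Vis.Defs

set_option autoImplicit false

/-!
# MP_6b3417_co, part I, module I-C: consecutive layers
-/

namespace Pool.Agent.helper85.Vis

open Pool.Agent.helper47.Vis Pool.Agent.helper88.Vis

lemma NoLine.mono {P Q : Finset (ℝ × ℝ)} {ℓ : ℕ} (h : NoLine P ℓ) (hQ : Q ⊆ P) : NoLine Q ℓ := by
  intro c d hd
  refine lt_of_le_of_lt (Finset.card_le_card ?_) (h c d hd)
  intro x hx
  rw [mem_fil] at hx ⊢
  exact ⟨hQ hx.1, hx.2⟩

lemma Bd_mono {P Q : Finset (ℝ × ℝ)} (hQ : Q ⊆ P) {x : ℝ × ℝ} (hx : x ∈ Q) (hB : x ∈ Bd P) :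
    x ∈ Bd Q := by
  unfold Bd at hB ⊢
  rw [mem_fil] at hB ⊢
  obtain ⟨-, f, hf, h⟩ := hB
  exact ⟨hx, f, hf, fun r hr => h r (hQ hr)⟩

lemma mem_Bd_of_not_inner {P : Finset (ℝ × ℝ)} {x : ℝ × ℝ} (hx : x ∈ P) (h : x ∉ inner P) :
    x ∈ Bd P := by
  by_contra hB
  exact h (by unfold helper88.Vis.inner; rw [mem_fil]; exact ⟨hx, hB⟩)

lemma inner_subset (P : Finset (ℝ × ℝ)) : helper88.Vis.inner P ⊆ P := fil_subset P _

lemma not_Bd_of_inner {P : Finset (ℝ × ℝ)} {x : ℝ × ℝ} (hx : x ∈ inner P) : x ∉ Bd P := by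
  unfold helper88.Vis.inner at hx
  rw [mem_fil] at hx
  exact hx.2

lemma convex_sd_pos (c d : ℝ × ℝ) : Convex ℝ {p : ℝ × ℝ | 0 < sd c d p} := by
  intro x hx y hy a b ha hb hab
  have hx : 0 < sd c d x := hx
  have hy : 0 < sd c d y := hy
  show 0 < sd c d (a • x + b • y)
  have h : sd c d (a • x + b • y) = a * sd c d x + b * sd c d y := by
    have hb' : b = 1 - a := by linarith
    subst hb'
    simp only [sd, Prod.fst_add, Prod.snd_add, Prod.smul_fst, Prod.smul_snd, smul_eq_mul]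
    ring
  rw [h]
  rcases ha.lt_or_eq with h1 | h1
  · have := mul_pos h1 hx
    have := mul_nonneg hb hy.le
    linarith
  · subst h1
    have : b = 1 := by linarith
    subst this
    linarith

/-- points in an open half plane without inner points -/
lemma half_card (wconv_K5 : ∀ (ℓ : ℕ) (B : Finset (ℝ × ℝ)), (∀ b ∈ B, b ∈ Bd B) → NoLine B ℓ →
      8 * ℓ + 5 ≤ B.card → ¬ K5free (B : Set (ℝ × ℝ)))
    (ℓ : ℕ) (P : Finset (ℝ × ℝ)) (hK : K5free (P : Set (ℝ × ℝ))) (hl : NoLine P ℓ)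
    (c d : ℝ × ℝ) (h : ∀ q ∈ inner P, sd c d q ≤ 0) :
    (fil P (fun p => 0 < sd c d p)).card < 8 * ℓ + 5 := by
  by_contra hcon
  rw [not_lt] at hcon
  refine wconv_K5 ℓ _ ?_ (NoLine.mono hl (fil_subset P _)) hcon ?_
  · intro b hb
    refine Bd_mono (fil_subset P _) hb (mem_Bd_of_not_inner (fil_subset P _ hb) fun hi => ?_)
    rw [mem_fil] at hb
    linarith [h b hi, hb.2]
  · refine K5free.convex hK (convex_sd_pos c d) ?_
    intro p
    rw [Finset.mem_coe, mem_fil]
    rfl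

lemma sd_neg (c d p : ℝ × ℝ) : sd c (-d) p = - sd c d p := by
  simp only [sd, Prod.fst_neg, Prod.snd_neg]; ring

lemma ori_eq_sd (p q r : ℝ × ℝ) : ori p q r = sd p (q - p) r := by
  simp only [ori, sd, Prod.fst_sub, Prod.snd_sub]

/-- the supporting functional argument: a boundary point of `P` is not in a triangle with a vertex
`p` of positive weight in `inner P` -/
lemma Bd_not_comb {P : Finset (ℝ × ℝ)} {x : ℝ × ℝ} (hx : x ∈ Bd P) {p q a b c : ℝ × ℝ}
    (hp : p ∈ inner P) (hq : q ∈ inner P) (ha : a ∈ inner P) (hb : b ∈ inner P)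
    (hc : c ∈ inner P) {α β γ : ℝ} (hα : 0 ≤ α) (hβ : 0 < β) (hγ : 0 ≤ γ) (hsum : α + β + γ = 1)
    (h1 : x.1 = α * ((a.1 + b.1 + c.1) / 3) + β * p.1 + γ * q.1)
    (h2 : x.2 = α * ((a.2 + b.2 + c.2) / 3) + β * p.2 + γ * q.2) : False := by
  unfold Bd at hx
  rw [mem_fil] at hx
  obtain ⟨-, f, hf, h⟩ := hx
  refine not_Bd_of_inner hp ?_
  unfold Bd
  rw [mem_fil]
  refine ⟨inner_subset P hp, f, hf, fun r hr => ?_⟩
  have e1 := h p (inner_subset P hp)
  have e2 := h q (inner_subset P hq)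
  have e3 := h a (inner_subset P ha)
  have e4 := h b (inner_subset P hb)
  have e5 := h c (inner_subset P hc)
  have e6 := h r hr
  set F := f.1 * x.1 + f.2 * x.2 with hF
  have key : F = α * (((f.1 * a.1 + f.2 * a.2) + (f.1 * b.1 + f.2 * b.2) +
      (f.1 * c.1 + f.2 * c.2)) / 3) + β * (f.1 * p.1 + f.2 * p.2) +
      γ * (f.1 * q.1 + f.2 * q.2) := by
    rw [hF, h1, h2]; ring
  have i1 : 0 ≤ α * ((((f.1 * a.1 + f.2 * a.2) + (f.1 * b.1 + f.2 * b.2) +
      (f.1 * c.1 + f.2 * c.2)) / 3) - F) := mul_nonneg hα (by linarith)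
  have i2 : 0 ≤ γ * ((f.1 * q.1 + f.2 * q.2) - F) := mul_nonneg hγ (by linarith)
  have i3 : β * ((f.1 * p.1 + f.2 * p.2) - F) ≤ 0 := by
    have : (α + β + γ) * F = F := by rw [hsum, one_mul]
    nlinarith
  have i4 : (f.1 * p.1 + f.2 * p.2) - F ≤ 0 := by
    by_contra hcon
    rw [not_le] at hcon
    linarith [mul_pos hβ hcon]
  linarith

lemma edge_mem {P : Finset (ℝ × ℝ)} {p q : ℝ × ℝ} (h : Edge P p q) : p ∈ Bd P := by
  unfold Bd
  rw [mem_fil]
  refine ⟨h.hp, (-(q.2 - p.2), q.1 - p.1), ?_, ?_⟩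
  · intro h0
    rw [Prod.mk_eq_zero] at h0
    exact h.ne (Prod.ext (by linarith [h0.2]) (by linarith [h0.1]))
  · intro r hr
    have := h.left r hr
    unfold ori at this
    simp only
    linarith

lemma pos_centroid {Q : Finset (ℝ × ℝ)} {a b c : ℝ × ℝ} (ha : a ∈ Q) (hb : b ∈ Q) (hc : c ∈ Q)
    (habc : ori a b c ≠ 0) {p q : ℝ × ℝ} (h : Edge Q p q) :
    0 < ori p q ((a.1 + b.1 + c.1) / 3, (a.2 + b.2 + c.2) / 3) := by
  have h1 := h.left a ha
  have h2 := h.left b hb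
  have h3 := h.left c hc
  have e : ori p q ((a.1 + b.1 + c.1) / 3, (a.2 + b.2 + c.2) / 3) =
      (ori p q a + ori p q b + ori p q c) / 3 := by
    simp only [ori]; ring
  rw [e]
  by_contra hcon
  rw [not_lt] at hcon
  have z1 : ori p q a = 0 := by linarith
  have z2 : ori p q b = 0 := by linarith
  have z3 : ori p q c = 0 := by linarith
  apply habc
  have k1 : (q.1 - p.1) * ori a b c = 0 := by
    have : (q.1 - p.1) * ori a b c = (b.1 - a.1) * (ori p q c - ori p q a) -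
        (c.1 - a.1) * (ori p q b - ori p q a) := by
      simp only [ori]; ring
    rw [this, z1, z2, z3]; ring
  have k2 : (q.2 - p.2) * ori a b c = 0 := by
    have : (q.2 - p.2) * ori a b c = (b.2 - a.2) * (ori p q c - ori p q a) -
        (c.2 - a.2) * (ori p q b - ori p q a) := by
      simp only [ori]; ring
    rw [this, z1, z2, z3]; ring
  rcases mul_eq_zero.1 k1 with h4 | h4
  · rcases mul_eq_zero.1 k2 with h5 | h5
    · exact absurd (Prod.ext (by linarith) (by linarith)) h.ne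
    · exact h5
  · exact h4

/-- a boundary point of `P` is strictly beyond an edge of the inner set -/
lemma exists_beyond
    (sector : ∀ (P : Finset (ℝ × ℝ)), NonCol P → ∀ z : ℝ × ℝ,
      (∀ p q, Edge P p q → 0 < ori p q z) → ∀ x : ℝ × ℝ, x ≠ z →
      ∃ p q, Edge P p q ∧ 0 ≤ ori z p x ∧ 0 < ori z x q)
    (P : Finset (ℝ × ℝ)) (h : NonCol (helper88.Vis.inner P)) (x : ℝ × ℝ) (hx : x ∈ Bd P) :
    ∃ p q, Edge (helper88.Vis.inner P) p q ∧ ori p q x < 0 := by
  obtain ⟨a, ha, b, hb, c, hc, habc⟩ := h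
  set z : ℝ × ℝ := ((a.1 + b.1 + c.1) / 3, (a.2 + b.2 + c.2) / 3) with hz
  have hzpos : ∀ p q, Edge (helper88.Vis.inner P) p q → 0 < ori p q z := fun p q he =>
    pos_centroid ha hb hc habc he
  have hxz : x ≠ z := by
    intro hxz
    unfold Bd at hx
    rw [mem_fil] at hx
    obtain ⟨-, f, hf, h⟩ := hx
    refine not_Bd_of_inner ha ?_
    unfold Bd
    rw [mem_fil]
    refine ⟨inner_subset P ha, f, hf, fun r hr => ?_⟩
    have e3 := h a (inner_subset P ha)
    have e4 := h b (inner_subset P hb)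
    have e5 := h c (inner_subset P hc)
    have e6 := h r hr
    have h1 : x.1 = (a.1 + b.1 + c.1) / 3 := by rw [hxz]
    have h2 : x.2 = (a.2 + b.2 + c.2) / 3 := by rw [hxz]
    have key : f.1 * x.1 + f.2 * x.2 = ((f.1 * a.1 + f.2 * a.2) + (f.1 * b.1 + f.2 * b.2) +
        (f.1 * c.1 + f.2 * c.2)) / 3 := by
      rw [h1, h2]; ring
    linarith
  obtain ⟨p, q, he, h1, h2⟩ := sector _ ⟨a, ha, b, hb, c, hc, habc⟩ z hzpos x hxz
  refine ⟨p, q, he, ?_⟩
  by_contra hcon
  rw [not_lt] at hcon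
  have hD := hzpos p q he
  refine Bd_not_comb hx he.hp he.hq ha hb hc (α := ori p q x / ori p q z)
    (β := ori z x q / ori p q z) (γ := ori z p x / ori p q z) (div_nonneg hcon hD.le)
    (div_pos h2 hD) (div_nonneg h1 hD.le) ?_ ?_ ?_
  · rw [← add_div, ← add_div, div_eq_one_iff_eq hD.ne']
    simp only [ori]; ring
  · have e : ori p q x / ori p q z * ((a.1 + b.1 + c.1) / 3) + ori z x q / ori p q z * p.1 +
        ori z p x / ori p q z * q.1 = (ori p q x * z.1 + ori z x q * p.1 + ori z p x * q.1) /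
        ori p q z := by
      rw [hz]; ring
    rw [e, eq_div_iff hD.ne']
    simp only [ori]; ring
  · have e : ori p q x / ori p q z * ((a.2 + b.2 + c.2) / 3) + ori z x q / ori p q z * p.2 +
        ori z p x / ori p q z * q.2 = (ori p q x * z.2 + ori z x q * p.2 + ori z p x * q.2) /
        ori p q z := by
      rw [hz]; ring
    rw [e, eq_div_iff hD.ne']
    simp only [ori]; ring

/-- Module I-C. -/
theorem layer_bound_of
    (wconv_K5 : ∀ (ℓ : ℕ) (B : Finset (ℝ × ℝ)), (∀ b ∈ B, b ∈ Bd B) → NoLine B ℓ →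
      8 * ℓ + 5 ≤ B.card → ¬ K5free (B : Set (ℝ × ℝ)))
    (edge_unique : ∀ (P : Finset (ℝ × ℝ)), NonCol P → ∀ p q q' : ℝ × ℝ, Edge P p q →
      Edge P p q' → q = q')
    (sector : ∀ (P : Finset (ℝ × ℝ)), NonCol P → ∀ z : ℝ × ℝ,
      (∀ p q, Edge P p q → 0 < ori p q z) → ∀ x : ℝ × ℝ, x ≠ z →
      ∃ p q, Edge P p q ∧ 0 ≤ ori z p x ∧ 0 < ori z x q)
    (ℓ : ℕ) (P : Finset (ℝ × ℝ)) (hK : K5free (P : Set (ℝ × ℝ)))
    (hl : NoLine P ℓ) : (Bd P).card ≤ (8 * ℓ + 5) * max (Bd (helper88.Vis.inner P)).card 3 := by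
  classical
  by_cases hQ : NonCol (helper88.Vis.inner P)
  · -- the inner set is not collinear
    let f : ℝ × ℝ → Finset (ℝ × ℝ) := fun p =>
      if h : ∃ q, Edge (helper88.Vis.inner P) p q then
        fil P (fun r => 0 < sd p (-(h.choose - p)) r) else ∅
    have hsub : Bd P ⊆ (Bd (helper88.Vis.inner P)).biUnion f := by
      intro x hx
      obtain ⟨p, q, he, hneg⟩ := exists_beyond sector P hQ x hx
      rw [Finset.mem_biUnion]
      refine ⟨p, edge_mem he, ?_⟩
      have hex : ∃ q, Edge (helper88.Vis.inner P) p q := ⟨q, he⟩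
      have hq : hex.choose = q := edge_unique _ hQ p _ _ hex.choose_spec he
      simp only [f]
      rw [dif_pos hex, mem_fil, hq, sd_neg, ← ori_eq_sd]
      refine ⟨?_, by linarith⟩
      unfold Bd at hx
      exact fil_subset _ _ hx
    have hcard : ∀ p ∈ Bd (helper88.Vis.inner P), (f p).card ≤ 8 * ℓ + 5 := by
      intro p _
      simp only [f]
      split_ifs with h
      · refine (half_card wconv_K5 ℓ P hK hl _ _ ?_).le
        intro q hq
        rw [sd_neg, ← ori_eq_sd]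
        linarith [h.choose_spec.left q hq]
      · simp
    calc (Bd P).card ≤ ((Bd (helper88.Vis.inner P)).biUnion f).card := Finset.card_le_card hsub
      _ ≤ (Bd (helper88.Vis.inner P)).card * (8 * ℓ + 5) :=
          Finset.card_biUnion_le_card_mul _ _ _ hcard
      _ ≤ (8 * ℓ + 5) * max (Bd (helper88.Vis.inner P)).card 3 := by
          rw [mul_comm]
          exact Nat.mul_le_mul_left _ (le_max_left _ _)
  · -- collinear
    obtain ⟨c, d, hd, hcd⟩ : ∃ c d : ℝ × ℝ, d ≠ 0 ∧ ∀ q ∈ helper88.Vis.inner P, sd c d q = 0 := by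
      by_cases h0 : ∃ a ∈ helper88.Vis.inner P, ∃ b ∈ helper88.Vis.inner P, a ≠ b
      · obtain ⟨a, ha, b, hb, hab⟩ := h0
        refine ⟨a, b - a, sub_ne_zero.2 hab.symm, fun q hq => ?_⟩
        rw [← ori_eq_sd]
        by_contra hne
        exact hQ ⟨a, ha, b, hb, q, hq, hne⟩
      · by_cases h1 : (helper88.Vis.inner P).Nonempty
        · obtain ⟨a, ha⟩ := h1
          refine ⟨a, (1, 0), by simp, fun q hq => ?_⟩
          have : a = q := by
            by_contra hne
            exact h0 ⟨a, ha, q, hq, hne⟩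
          rw [← this]
          simp [sd]
        · refine ⟨0, (1, 0), by simp, fun q hq => absurd ⟨q, hq⟩ h1⟩
    have h1 := half_card wconv_K5 ℓ P hK hl c d (fun q hq => (hcd q hq).le)
    have h2 := half_card wconv_K5 ℓ P hK hl c (-d) (fun q hq => by rw [sd_neg, hcd q hq, neg_zero])
    have h3 := hl c d hd
    have hsub : Bd P ⊆ fil P (fun p => 0 < sd c d p) ∪ fil P (fun p => 0 < sd c (-d) p) ∪
        fil P (fun p => sd c d p = 0) := by
      intro x hx
      have hxP : x ∈ P := by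
        unfold Bd at hx
        exact fil_subset _ _ hx
      rw [Finset.mem_union, Finset.mem_union, mem_fil, mem_fil, mem_fil, sd_neg]
      rcases lt_trichotomy (sd c d x) 0 with h | h | h
      · exact Or.inl (Or.inr ⟨hxP, by linarith⟩)
      · exact Or.inr ⟨hxP, h⟩
      · exact Or.inl (Or.inl ⟨hxP, h⟩)
    have h4 := Finset.card_le_card hsub
    have h5 := Finset.card_union_le (fil P (fun p => 0 < sd c d p) ∪
      fil P (fun p => 0 < sd c (-d) p)) (fil P (fun p => sd c d p = 0))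
    have h6 := Finset.card_union_le (fil P (fun p => 0 < sd c d p))
      (fil P (fun p => 0 < sd c (-d) p))
    have h7 : (8 * ℓ + 5) * 3 ≤ (8 * ℓ + 5) * max (Bd (helper88.Vis.inner P)).card 3 :=
      Nat.mul_le_mul_left _ (le_max_right _ _)
    omega

end Pool.Agent.helper85.Vis
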